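import Pool.Agent.Helper79.GT.St6

set_option autoImplicit false

namespace Pool.Agent.Helper39.GT

open Pool.Agent.Helper79.GT Pool.Agent.Helper79.GS Pool.Agent.Helper19.SK Pool.Agent.Helper73.DC

private theorem evlIte {p : List (Fin 5) → (ℕ → ℕ) → Prop} {F G : VF (Fin 5)}
    (d : ∀ w v, Decidable (p w v)) (hp : E2P p) (hF : E2 F) (hG : E2 G) :
    E2 (fun w v => @ite ℕ (p w v) (d w v) (F w v) (G w v)) := by
  have h := e_ite hp hF hG
  have e : (fun w v => @ite ℕ (p w v) (d w v) (F w v) (G w v)) =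
      fun w v => @ite ℕ (p w v) (Classical.propDecidable _) (F w v) (G w v) := by
    funext w v
    congr
  rw [e]
  exact h

private theorem evlLc {U : VF (Fin 5)} (hU : E2 U) : E2 (fun w v => lcN (U w v)) := by
  unfold lcN
  exact evlIte _ (e_eq hU (e_con _)) (e_con _)
    (evlIte _ (e_eq hU (e_con _)) (e_con _) (e_con _))

theorem hEVL (hEVW : StEVW) : Pool.Agent.Helper79.GT.StEVL := by
  refine ⟨fun U hU => ⟨evlLc hU, ?_⟩, ?_⟩
  · unfold o1
    exact evlIte _ (e_eq hU (e_con _)) (e_con _) (e_con _)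
  · intro C B B' I hC hB hB' hI
    have hn : E2 (α := Fin 5) (fun w _ => nV w) := hEVW.1
    have hnn : E2 (α := Fin 5) (fun w _ => nV w * nV w) := e_mul hn hn
    unfold vlt
    refine evlIte _ (e_lt hI e_len) (e_lett hI) ?_
    refine evlIte _ (e_eq hI e_len) ?_ ?_
    · exact evlIte _ (e_eq hC (e_con _)) (e_con _) (e_con _)
    refine evlIte _ (e_lt hI (e_add (e_add e_len (e_con 1)) hnn)) ?_ ?_
    · exact evlLc (e_dg (e_con 3) hB (e_sub (e_sub hI e_len) (e_con 1)))
    refine evlIte _ (e_lt hI (e_add (e_add e_len (e_con 1)) (e_mul (e_con 2) hnn))) ?_ (e_con 0)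
    exact evlLc (e_dg (e_con 3) hB' (e_sub (e_sub (e_sub hI e_len) (e_con 1)) hnn))

end Pool.Agent.Helper39.GT

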